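import Mathlib

set_option autoImplicit false
open Finset

namespace Pool.Agent.H34.SG

/-- The Sidon property of a finite set of naturals. -/
def IsSid (A : Finset ℕ) : Prop :=
  ∀ a ∈ A, ∀ b ∈ A, ∀ c ∈ A, ∀ d ∈ A, a + b = c + d →
    (a = c ∧ b = d) ∨ (a = d ∧ b = c)

/-- Number of elements of `B` in the window of length `w` ending at `j`. -/
def cnt (B : Finset ℕ) (w j : ℕ) : ℕ := (B.filter (fun b => b ≤ j ∧ j < b + w)).card

lemma sum_cnt (B : Finset ℕ) (N w : ℕ) (hB : ∀ b ∈ B, b ≤ N) :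
    ∑ j ∈ range (N + w), cnt B w j = w * B.card := by
  unfold cnt
  simp_rw [card_filter]
  rw [sum_comm]
  have h : ∀ b ∈ B, ∑ j ∈ range (N + w), (if b ≤ j ∧ j < b + w then 1 else 0) = w := by
    intro b hb
    rw [← card_filter]
    have h1 : (range (N + w)).filter (fun j => b ≤ j ∧ j < b + w) = Ico b (b + w) := by
      ext j
      have := hB b hb
      simp only [mem_filter, mem_range, mem_Ico]
      omega
    rw [h1]; simp
  rw [sum_congr rfl h]
  simp [mul_comm]

lemma off_count (B : Finset ℕ) (hS : IsSid B) (i : ℕ) :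
    ((B.offDiag).filter (fun p => p.1 ≤ p.2 + i ∧ p.2 ≤ p.1 + i)).card ≤ 2 * i := by
  have h1 : ((Finset.Icc (-(i : ℤ)) i).erase 0).card = 2 * i := by
    rw [card_erase_of_mem (by simp)]
    simp only [Int.card_Icc]
    omega
  rw [← h1]
  apply card_le_card_of_injOn (fun p => (p.1 : ℤ) - p.2)
  · intro p hp
    simp only [coe_filter, mem_offDiag, Set.mem_setOf_eq] at hp
    simp only [coe_erase, Set.mem_sdiff, mem_coe, mem_Icc, Set.mem_singleton_iff]
    obtain ⟨⟨_, _, h3⟩, h4, h5⟩ := hp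
    omega
  · intro p hp q hq hpq
    simp only [coe_filter, mem_offDiag, Set.mem_setOf_eq] at hp hq
    obtain ⟨⟨hp1, hp2, hp3⟩, _⟩ := hp
    obtain ⟨⟨hq1, hq2, _⟩, _⟩ := hq
    simp only at hpq
    have h : p.1 + q.2 = q.1 + p.2 := by omega
    rcases hS _ hp1 _ hq2 _ hq1 _ hp2 h with h' | h'
    · exact Prod.ext h'.1 h'.2.symm
    · exact absurd h'.1 hp3

lemma sum_sq_cnt (B : Finset ℕ) (hS : IsSid B) (N w : ℕ) :
    ∑ j ∈ range (N + w), (cnt B w j) ^ 2 ≤ w * B.card + w ^ 2 := by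
  have h1 : ∀ j, (cnt B w j) ^ 2 = ∑ p ∈ B ×ˢ B,
      (if (p.1 ≤ j ∧ j < p.1 + w) ∧ (p.2 ≤ j ∧ j < p.2 + w) then 1 else 0) := by
    intro j
    unfold cnt
    rw [sq, ← card_product, ← filter_product, card_filter]
  simp_rw [h1]
  rw [sum_comm]
  simp_rw [← card_filter]
  rw [← diag_union_offDiag, sum_union (disjoint_diag_offDiag B)]
  refine Nat.add_le_add ?_ ?_
  · have h2 : ∀ p ∈ B.diag, (filter (fun j => (p.1 ≤ j ∧ j < p.1 + w) ∧ (p.2 ≤ j ∧ j < p.2 + w))
        (range (N + w))).card ≤ w := by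
      intro p _
      calc _ ≤ (Ico p.1 (p.1 + w)).card := by
            apply card_le_card
            intro j hj
            simp only [mem_filter, mem_range] at hj
            simp only [mem_Ico]
            exact hj.2.1
        _ = w := by simp
    calc _ ≤ ∑ _p ∈ B.diag, w := sum_le_sum h2
      _ = w * B.card := by simp [mul_comm]
  · have h2 : ∀ p ∈ B.offDiag, (filter (fun j => (p.1 ≤ j ∧ j < p.1 + w) ∧ (p.2 ≤ j ∧ j < p.2 + w))
        (range (N + w))).card ≤ ∑ i ∈ range w, (if p.1 ≤ p.2 + i ∧ p.2 ≤ p.1 + i then 1 else 0) := by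
      intro p _
      rw [← card_filter]
      apply card_le_card_of_injOn (fun j => j - min p.1 p.2)
      · intro j hj
        simp only [coe_filter, mem_range, Set.mem_setOf_eq] at hj
        simp only [coe_filter, mem_range, Set.mem_setOf_eq]
        omega
      · intro j hj k hk hjk
        simp only [coe_filter, mem_range, Set.mem_setOf_eq] at hj hk
        simp only at hjk
        omega
    calc _ ≤ ∑ p ∈ B.offDiag, ∑ i ∈ range w, (if p.1 ≤ p.2 + i ∧ p.2 ≤ p.1 + i then 1 else 0) :=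
          sum_le_sum h2
      _ = ∑ i ∈ range w, ((B.offDiag).filter (fun p => p.1 ≤ p.2 + i ∧ p.2 ≤ p.1 + i)).card := by
          rw [sum_comm]
          simp_rw [card_filter]
      _ ≤ ∑ i ∈ range w, 2 * i := sum_le_sum fun i _ => off_count B hS i
      _ ≤ w ^ 2 := by
          rw [← mul_sum]
          have := Finset.sum_range_id_mul_two w
          have h3 : w * (w - 1) ≤ w * w := Nat.mul_le_mul_left _ (Nat.sub_le _ _)
          nlinarith

lemma interval_sum (B : Finset ℕ) (N w u x : ℕ) (hB : ∀ b ∈ B, b ≤ N) :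
    w * (B.filter (fun b => u ≤ b ∧ b < u + x)).card
      ≤ ∑ j ∈ (range (N + w)).filter (fun j => u ≤ j ∧ j < u + x + w), cnt B w j := by
  have h := sum_cnt (B.filter (fun b => u ≤ b ∧ b < u + x)) N w (fun b hb => hB b (mem_filter.1 hb).1)
  rw [← h]
  have h2 : ∑ j ∈ range (N + w), cnt (B.filter (fun b => u ≤ b ∧ b < u + x)) w j
      = ∑ j ∈ (range (N + w)).filter (fun j => u ≤ j ∧ j < u + x + w),
          cnt (B.filter (fun b => u ≤ b ∧ b < u + x)) w j := by
    symm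
    apply sum_subset (filter_subset _ _)
    intro j hj hj2
    simp only [mem_filter, hj, true_and] at hj2
    unfold cnt
    rw [card_eq_zero, filter_eq_empty_iff]
    intro b hb hbj
    simp only [mem_filter] at hb
    omega
  rw [h2]
  apply sum_le_sum
  intro j _
  unfold cnt
  apply card_le_card
  intro b hb
  simp only [mem_filter] at hb ⊢
  exact ⟨hb.1.1, hb.2⟩

/-- Variance inequality. -/
lemma variance (s J : Finset ℕ) (hJ : J ⊆ s) (f : ℕ → ℝ) (hs : 0 < (s.card : ℝ)) :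
    (∑ j ∈ J, f j - (∑ j ∈ s, f j) / s.card * J.card) ^ 2
      ≤ J.card * (∑ j ∈ s, (f j) ^ 2 - (∑ j ∈ s, f j) ^ 2 / s.card) := by
  set a : ℝ := (∑ j ∈ s, f j) / s.card with ha
  have h1 : ∑ j ∈ J, f j - a * J.card = ∑ j ∈ J, (f j - a) := by
    rw [sum_sub_distrib]; simp [mul_comm]
  have h2 : ∑ j ∈ s, (f j) ^ 2 - (∑ j ∈ s, f j) ^ 2 / s.card = ∑ j ∈ s, (f j - a) ^ 2 := by
    have h3 : ∑ j ∈ s, (f j - a) ^ 2 = ∑ j ∈ s, (f j) ^ 2 - 2 * a * ∑ j ∈ s, f j + s.card * a ^ 2 := by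
      have h4 : ∀ j ∈ s, (f j - a) ^ 2 = (f j) ^ 2 - 2 * a * f j + a ^ 2 := fun j _ => by ring
      rw [sum_congr rfl h4, sum_add_distrib, sum_sub_distrib, ← mul_sum]
      simp
    rw [h3, ha]
    field_simp
    ring
  rw [h1, h2]
  calc (∑ j ∈ J, (f j - a)) ^ 2 ≤ J.card * ∑ j ∈ J, (f j - a) ^ 2 := sq_sum_le_card_mul_sum_sq
    _ ≤ J.card * ∑ j ∈ s, (f j - a) ^ 2 := by
        apply mul_le_mul_of_nonneg_left _ (by positivity)
        exact sum_le_sum_of_subset_of_nonneg hJ (fun j _ _ => sq_nonneg _)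

end Pool.Agent.H34.SG
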