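import Mathlib
import Pool.Agent.H34.SG.Window

set_option autoImplicit false
open Finset

namespace Pool.Agent.H34.SG

lemma card_bound (N : ℕ) (B : Finset ℕ) (hS : IsSid B) (hB : ∀ b ∈ B, b ≤ N)
    (hr : 2 ≤ Real.sqrt N) : (B.card : ℝ) ≤ 2 * Real.sqrt N := by
  set r := Real.sqrt N with hrdef
  have hr2 : r ^ 2 = N := Real.sq_sqrt (Nat.cast_nonneg N)
  have hNpos : (0 : ℝ) < N := by nlinarith
  have h1 := sum_cnt B N N hB
  have h2 := sum_sq_cnt B hS N N
  have h3 : (∑ j ∈ range (N + N), (cnt B N j : ℝ)) ^ 2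
      ≤ ((range (N + N)).card : ℝ) * ∑ j ∈ range (N + N), (cnt B N j : ℝ) ^ 2 :=
    sq_sum_le_card_mul_sum_sq
  have h1' : (∑ j ∈ range (N + N), (cnt B N j : ℝ)) = N * B.card := by exact_mod_cast h1
  have h2' : (∑ j ∈ range (N + N), (cnt B N j : ℝ) ^ 2) ≤ N * B.card + (N : ℝ) ^ 2 := by
    exact_mod_cast h2
  rw [h1'] at h3
  simp only [card_range] at h3
  push_cast at h3
  have h4 : ((N : ℝ) * B.card) ^ 2 ≤ (N + N) * (N * B.card + (N : ℝ) ^ 2) :=
    h3.trans (mul_le_mul_of_nonneg_left h2' (by positivity))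
  have h5 : (B.card : ℝ) ^ 2 ≤ 2 * B.card + 2 * N := by
    have h6 : (N : ℝ) ^ 2 * (B.card : ℝ) ^ 2 ≤ (N : ℝ) ^ 2 * (2 * B.card + 2 * N) := by nlinarith only [h4]
    exact le_of_mul_le_mul_left h6 (by positivity)
  by_contra hc
  push Not at hc
  rw [← hr2] at h5
  nlinarith only [h5, hc, hr]

lemma interval_bound (N : ℕ) (η : ℝ) (B : Finset ℕ) (hS : IsSid B) (hB : ∀ b ∈ B, b ≤ N)
    (hη : 0 < η) (hη1 : η ≤ 1 / 2) (hN : 16 ≤ η ^ 4 * N)
    (hn : (1 - η) * Real.sqrt N ≤ B.card) (u x : ℕ) (hx : 8 * η * N ≤ x) :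
    ((B.filter (fun b => u ≤ b ∧ b < u + x)).card : ℝ) ≤ 5 * x / Real.sqrt N := by
  set r := Real.sqrt N with hrdef
  have hr2 : r ^ 2 = N := Real.sq_sqrt (Nat.cast_nonneg N)
  have hr0 : 0 ≤ r := Real.sqrt_nonneg _
  have hηr : 4 ≤ η ^ 2 * r := by
    have h1 : (4 : ℝ) ^ 2 ≤ (η ^ 2 * r) ^ 2 := by
      calc (4 : ℝ) ^ 2 = 16 := by norm_num
        _ ≤ η ^ 4 * N := hN
        _ = (η ^ 2 * r) ^ 2 := by rw [← hr2]; ring
    exact le_of_sq_le_sq h1 (by positivity)
  have hη2 : η ^ 2 ≤ 1 / 4 := by nlinarith only [hη1, hη]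
  have hr16 : 16 ≤ r := by nlinarith only [hηr, hr0, hη2]
  have hrpos : 0 < r := by linarith
  have hn2 : (B.card : ℝ) ≤ 2 * r := card_bound N B hS hB (by linarith)
  set n : ℝ := (B.card : ℝ) with hndef
  have hn0 : 0 ≤ n := Nat.cast_nonneg _
  set w : ℕ := ⌊η * N⌋₊ with hwdef
  have hNpos : (0 : ℝ) < N := by rw [← hr2]; positivity
  have hw1 : (w : ℝ) ≤ η * N := Nat.floor_le (by positivity)
  have hw2 : η * N < w + 1 := Nat.lt_floor_add_one _
  have hηN : 4 * r ≤ η * N := by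
    have h1 : 4 * r ≤ η ^ 2 * r * r := mul_le_mul_of_nonneg_right hηr hr0
    have h2 : η ^ 2 * r * r ≤ η * N := by
      rw [← hr2]
      have h3 : η ^ 2 ≤ η := by nlinarith only [hη, hη1]
      nlinarith only [mul_le_mul_of_nonneg_right h3 (sq_nonneg r), h3]
    linarith
  have hw3 : η * N / 2 ≤ w := by linarith
  have hwpos : (0 : ℝ) < w := by linarith
  -- the variance
  set s := range (N + w) with hsdef
  set J := s.filter (fun j => u ≤ j ∧ j < u + x + w) with hJdef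
  have hcards : (s.card : ℝ) = N + w := by simp [hsdef]
  have hspos : (0 : ℝ) < s.card := by rw [hcards]; positivity
  have hvar := variance s J (filter_subset _ _) (fun j => (cnt B w j : ℝ)) hspos
  have hS1 : ∑ j ∈ s, (cnt B w j : ℝ) = w * n := by
    have := sum_cnt B N w hB
    rw [hndef]; exact_mod_cast this
  have hS2 : ∑ j ∈ s, (cnt B w j : ℝ) ^ 2 ≤ w * n + (w : ℝ) ^ 2 := by
    have := sum_sq_cnt B hS N w
    rw [hndef]; exact_mod_cast this
  have hT : (w : ℝ) * (B.filter (fun b => u ≤ b ∧ b < u + x)).card ≤ ∑ j ∈ J, (cnt B w j : ℝ) := by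
    have := interval_sum B N w u x hB
    exact_mod_cast this
  set m : ℝ := ((B.filter (fun b => u ≤ b ∧ b < u + x)).card : ℝ) with hmdef
  set T : ℝ := ∑ j ∈ J, (cnt B w j : ℝ) with hTdef
  have hJ1 : (J.card : ℝ) ≤ x + w := by
    have h1 : J ⊆ Ico u (u + x + w) := by
      intro j hj
      simp only [hJdef, mem_filter] at hj
      simp only [mem_Ico]; exact hj.2
    have h2 := card_le_card h1
    simp only [Nat.card_Ico] at h2
    have h3 : J.card ≤ x + w := by omega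
    exact_mod_cast h3
  have hx0 : (0 : ℝ) ≤ x := Nat.cast_nonneg _
  have hwx : (w : ℝ) ≤ x := by nlinarith only [hη, hη1, hx, hr16, hw1, hηN]
  have hJ2 : (J.card : ℝ) ≤ 2 * x := by linarith only [hη, hη1, hx, hr16, hw1, hηN, hJ1]
  rw [hS1, hcards] at hvar
  -- bound of the variance
  have hV : ∑ j ∈ s, (cnt B w j : ℝ) ^ 2 - (w * n) ^ 2 / (N + w) ≤ 4 * η * (w : ℝ) ^ 2 := by
    have ha : n ≤ η * w := by
      have h1 : η * (η * N / 2) ≤ η * w := mul_le_mul_of_nonneg_left hw3 hη.le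
      have h2 : 2 * r ≤ η * (η * N / 2) := by
        rw [← hr2]
        have h3 : 4 * r ≤ η ^ 2 * r * r := mul_le_mul_of_nonneg_right hηr hr0
        nlinarith only [h3]
      linarith only [hn2, h1, h2]
    have hb : (1 - 3 * η) * (N + w) ≤ n ^ 2 := by
      have h1 : ((1 - η) * r) ^ 2 ≤ n ^ 2 := by
        apply pow_le_pow_left₀ _ hn
        have : 0 ≤ 1 - η := by linarith only [hη, hη1]
        positivity
      have h2 : ((1 - η) * r) ^ 2 = (1 - η) ^ 2 * N := by rw [← hr2]; ring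
      rw [h2] at h1
      by_cases h3 : 0 ≤ 1 - 3 * η
      · have h4 : (1 - 3 * η) * (N + w) ≤ (1 - 3 * η) * (N + η * N) :=
          mul_le_mul_of_nonneg_left (by linarith only [hw1]) h3
        nlinarith only [mul_nonneg (sq_nonneg η) hNpos.le, hw1, ha, h1, hNpos]
      · push Not at h3
        have h4 : (1 - 3 * η) * (N + w) ≤ 0 :=
          mul_nonpos_of_nonpos_of_nonneg h3.le (by positivity)
        nlinarith only [sq_nonneg n, h4]
    have hc : (1 - 3 * η) * (w : ℝ) ^ 2 ≤ (w * n) ^ 2 / (N + w) := by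
      rw [le_div_iff₀ (by positivity)]
      calc (1 - 3 * η) * (w : ℝ) ^ 2 * (N + w) = (w : ℝ) ^ 2 * ((1 - 3 * η) * (N + w)) := by ring
        _ ≤ (w : ℝ) ^ 2 * n ^ 2 := mul_le_mul_of_nonneg_left hb (by positivity)
        _ = (w * n) ^ 2 := by ring
    have hd : (w : ℝ) * n ≤ η * (w : ℝ) ^ 2 := by nlinarith only [ha]
    linarith only [hS2, hc, hd]
  have hsq : (T - w * n / (N + w) * J.card) ^ 2 ≤ (w * x / r) ^ 2 := by
    have h1 : (J.card : ℝ) * (∑ j ∈ s, (cnt B w j : ℝ) ^ 2 - (w * n) ^ 2 / (N + w))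
        ≤ (2 * x) * (4 * η * (w : ℝ) ^ 2) := by
      calc _ ≤ (J.card : ℝ) * (4 * η * (w : ℝ) ^ 2) := mul_le_mul_of_nonneg_left hV (by positivity)
        _ ≤ _ := mul_le_mul_of_nonneg_right hJ2 (by positivity)
    have h2 : (2 * x) * (4 * η * (w : ℝ) ^ 2) ≤ (w * x / r) ^ 2 := by
      rw [div_pow, le_div_iff₀ (by positivity)]
      have h3 : 8 * η * r ^ 2 ≤ x := by rw [hr2]; exact hx
      have h4 : (w : ℝ) ^ 2 * x * (8 * η * r ^ 2) ≤ (w : ℝ) ^ 2 * x * x :=
        mul_le_mul_of_nonneg_left h3 (by positivity)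
      nlinarith only [h4]
    linarith only [hvar, h1, h2]
  have hT2 : T - w * n / (N + w) * J.card ≤ w * x / r :=
    le_of_sq_le_sq hsq (by positivity)
  have hmean : w * n / (N + w) * J.card ≤ 4 * (w * x / r) := by
    have h1 : w * n / (N + w) ≤ 2 * w / r := by
      rw [div_le_div_iff₀ (by positivity) hrpos]
      have h2 : (w : ℝ) * n * r ≤ w * (2 * r) * r := by gcongr
      have h3 : (w : ℝ) * (2 * r) * r = 2 * w * N := by rw [← hr2]; ring
      nlinarith only [mul_pos hwpos hwpos, h2, h3]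
    calc w * n / (N + w) * J.card ≤ 2 * w / r * (2 * x) := by gcongr
      _ = 4 * (w * x / r) := by ring
  have hfin : (w : ℝ) * m ≤ w * (5 * x / r) := by
    have : (w : ℝ) * (5 * x / r) = 5 * (w * x / r) := by ring
    linarith only [hT, hT2, hmean, this]
  exact le_of_mul_le_mul_left hfin hwpos

end Pool.Agent.H34.SG
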