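import Mathlib
import Pool.Agent.H34.SG.Interval

set_option autoImplicit false
open Finset
open Pointwise

namespace Pool.Agent.H34.SG

/-- Pairs of consecutive elements of a finite set. -/
def gaps (S : Finset ℕ) : Finset (ℕ × ℕ) :=
  (S ×ˢ S).filter (fun p => p.1 < p.2 ∧ ∀ z ∈ S, ¬ (p.1 < z ∧ z < p.2))

lemma exists_gap (S : Finset ℕ) (y : ℕ) (h1 : ∃ s ∈ S, s ≤ y) (h2 : ∃ s ∈ S, y < s) :
    ∃ p ∈ gaps S, p.1 ≤ y ∧ y < p.2 := by
  obtain ⟨s1, hs1, hs1y⟩ := h1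
  obtain ⟨s2, hs2, hs2y⟩ := h2
  have hne1 : (S.filter (fun s => s ≤ y)).Nonempty := ⟨s1, by simp [hs1, hs1y]⟩
  have hne2 : (S.filter (fun s => y < s)).Nonempty := ⟨s2, by simp [hs2, hs2y]⟩
  have hm1 := max'_mem _ hne1
  have hm2 := min'_mem _ hne2
  set p1 := (S.filter (fun s => s ≤ y)).max' hne1 with hp1
  set p2 := (S.filter (fun s => y < s)).min' hne2 with hp2
  simp only [mem_filter] at hm1 hm2
  refine ⟨(p1, p2), ?_, hm1.2, hm2.2⟩
  simp only [gaps, mem_filter, mem_product]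
  refine ⟨⟨hm1.1, hm2.1⟩, by omega, ?_⟩
  rintro z hz ⟨hz1, hz2⟩
  rcases le_or_gt z y with h | h
  · have := le_max' (S.filter (fun s => s ≤ y)) z (by simp [hz, h])
    omega
  · have := min'_le (S.filter (fun s => y < s)) z (by simp [hz, h])
    omega

lemma gaps_inj (S : Finset ℕ) (p q : ℕ × ℕ) (hp : p ∈ gaps S) (hq : q ∈ gaps S)
    (h : p.1 = q.1) : p = q := by
  simp only [gaps, mem_filter, mem_product] at hp hq
  obtain ⟨⟨_, hp2⟩, hp3, hp4⟩ := hp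
  obtain ⟨⟨_, hq2⟩, hq3, hq4⟩ := hq
  have h1 := hp4 _ hq2
  have h2 := hq4 _ hp2
  apply Prod.ext h
  omega

lemma region (S : Finset ℕ) (α β : ℕ) (hα : ∃ s ∈ S, s ≤ α) (hβ : ∃ s ∈ S, β ≤ s) :
    ((β - α : ℕ) : ℝ) ^ 2 ≤ ((S.filter (fun s => s < β)).card : ℝ) *
      ∑ p ∈ gaps S, ((Ico p.1 p.2 ∩ Ico α β).card : ℝ) ^ 2 := by
  classical
  set G := (gaps S).filter (fun p => (Ico p.1 p.2 ∩ Ico α β).Nonempty) with hG
  have hcov : β - α ≤ ∑ p ∈ G, (Ico p.1 p.2 ∩ Ico α β).card := by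
    have h1 : Ico α β ⊆ G.biUnion (fun p => Ico p.1 p.2 ∩ Ico α β) := by
      intro y hy
      have hy' := hy
      simp only [mem_Ico] at hy'
      obtain ⟨s1, hs1, hs1'⟩ := hα
      obtain ⟨s2, hs2, hs2'⟩ := hβ
      obtain ⟨p, hp, hpy⟩ := exists_gap S y ⟨s1, hs1, by omega⟩ ⟨s2, hs2, by omega⟩
      simp only [mem_biUnion]
      have hyp : y ∈ Ico p.1 p.2 ∩ Ico α β := by
        simp only [mem_inter, mem_Ico]; exact ⟨hpy, hy'⟩
      exact ⟨p, by simp only [hG, mem_filter]; exact ⟨hp, ⟨y, hyp⟩⟩, hyp⟩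
    calc β - α = (Ico α β).card := by simp
      _ ≤ _ := card_le_card h1
      _ ≤ _ := card_biUnion_le
  have hcov' : ((β - α : ℕ) : ℝ) ≤ ∑ p ∈ G, ((Ico p.1 p.2 ∩ Ico α β).card : ℝ) := by
    exact_mod_cast hcov
  have hcard : G.card ≤ (S.filter (fun s => s < β)).card := by
    apply card_le_card_of_injOn (fun p => p.1)
    · intro p hp
      simp only [hG, coe_filter, Set.mem_setOf_eq] at hp
      obtain ⟨hp1, y, hy⟩ := hp
      simp only [mem_inter, mem_Ico] at hy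
      simp only [gaps, mem_filter, mem_product] at hp1
      simp only [coe_filter, Set.mem_setOf_eq]
      exact ⟨hp1.1.1, by omega⟩
    · intro p hp q hq hpq
      simp only [hG, coe_filter, Set.mem_setOf_eq] at hp hq
      exact gaps_inj S p q hp.1 hq.1 hpq
  have hcard' : (G.card : ℝ) ≤ (S.filter (fun s => s < β)).card := by exact_mod_cast hcard
  calc ((β - α : ℕ) : ℝ) ^ 2 ≤ (∑ p ∈ G, ((Ico p.1 p.2 ∩ Ico α β).card : ℝ)) ^ 2 :=
        pow_le_pow_left₀ (Nat.cast_nonneg _) hcov' 2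
    _ ≤ (G.card : ℝ) * ∑ p ∈ G, ((Ico p.1 p.2 ∩ Ico α β).card : ℝ) ^ 2 := sq_sum_le_card_mul_sum_sq
    _ ≤ ((S.filter (fun s => s < β)).card : ℝ) *
        ∑ p ∈ gaps S, ((Ico p.1 p.2 ∩ Ico α β).card : ℝ) ^ 2 := by
        apply mul_le_mul hcard' _ (sum_nonneg (fun _ _ => sq_nonneg _)) (Nat.cast_nonneg _)
        exact sum_le_sum_of_subset_of_nonneg (filter_subset _ _) (fun _ _ _ => sq_nonneg _)

lemma pieces (a h K : ℕ) (X : Finset ℕ) :
    ∑ k ∈ range K, ((X ∩ Ico (a + 2 ^ k * h) (a + 2 ^ (k + 1) * h)).card : ℝ) ^ 2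
      ≤ (X.card : ℝ) ^ 2 := by
  classical
  have h1 : ∑ k ∈ range K, (X ∩ Ico (a + 2 ^ k * h) (a + 2 ^ (k + 1) * h)).card ≤ X.card := by
    rw [← card_biUnion]
    · apply card_le_card
      intro y hy
      simp only [mem_biUnion, mem_inter] at hy
      obtain ⟨_, _, hy, _⟩ := hy
      exact hy
    · have key : ∀ i j : ℕ, i < j → Disjoint (X ∩ Ico (a + 2 ^ i * h) (a + 2 ^ (i + 1) * h))
          (X ∩ Ico (a + 2 ^ j * h) (a + 2 ^ (j + 1) * h)) := by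
        intro i j hij
        rw [disjoint_left]
        intro y hy hy2
        simp only [mem_inter, mem_Ico] at hy hy2
        have h2 : 2 ^ (i + 1) * h ≤ 2 ^ j * h :=
          Nat.mul_le_mul_right _ (Nat.pow_le_pow_right (by norm_num) hij)
        omega
      intro i _ j _ hij
      rcases lt_or_gt_of_ne hij with h2 | h2
      · exact key i j h2
      · exact (key j i h2).symm
  have h2 : (∑ k ∈ range K, ((X ∩ Ico (a + 2 ^ k * h) (a + 2 ^ (k + 1) * h)).card : ℝ))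
      ≤ X.card := by exact_mod_cast h1
  calc _ ≤ (∑ k ∈ range K, ((X ∩ Ico (a + 2 ^ k * h) (a + 2 ^ (k + 1) * h)).card : ℝ)) ^ 2 :=
        sum_sq_le_sq_sum_of_nonneg (fun _ _ => Nat.cast_nonneg _)
    _ ≤ _ := pow_le_pow_left₀ (sum_nonneg (fun _ _ => Nat.cast_nonneg _)) h2 2

end Pool.Agent.H34.SG
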