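import Mathlib
import Pool.Agent.H34.SG.Gap

set_option autoImplicit false
open Finset
open Pointwise

namespace Pool.Agent.H34.SG

lemma small_sums (A : Finset ℕ) (a X : ℕ) (ha : ∀ b ∈ A, a ≤ b) :
    ((A + A).filter (fun s => s < 2 * a + X)).card
      ≤ (A.filter (fun b => a ≤ b ∧ b < a + X)).card ^ 2 := by
  classical
  rw [sq, ← card_product]
  have h : (A + A).filter (fun s => s < 2 * a + X) ⊆
      ((A.filter (fun b => a ≤ b ∧ b < a + X)) ×ˢ (A.filter (fun b => a ≤ b ∧ b < a + X))).image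
        (fun p => p.1 + p.2) := by
    intro s hs
    simp only [mem_filter, mem_add] at hs
    obtain ⟨⟨b, hb, c, hc, hbc⟩, hs2⟩ := hs
    have h1 := ha b hb
    have h2 := ha c hc
    simp only [mem_image, mem_product, mem_filter]
    exact ⟨(b, c), ⟨⟨hb, h1, by omega⟩, hc, h2, by omega⟩, hbc⟩
  exact (card_le_card h).trans card_image_le

lemma scale (N : ℕ) (η : ℝ) (A B : Finset ℕ) (hAB : A ⊆ B) (hS : IsSid B) (hB : ∀ b ∈ B, b ≤ N)
    (hη : 0 < η) (hη1 : η ≤ 1 / 2) (hN : 16 ≤ η ^ 4 * N)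
    (hn : (1 - η) * Real.sqrt N ≤ B.card) (hr : 0 < Real.sqrt N) (a L y : ℕ)
    (ha : a ∈ A) (ha' : ∀ b ∈ A, a ≤ b) (hb : a + L ∈ A) (hy : 0 < y)
    (hyL : 2 * y ≤ 2 * L) (hx : 8 * η * N ≤ (2 * y : ℕ)) :
    (N : ℝ) / 100 ≤ ∑ p ∈ gaps (A + A),
      ((Ico p.1 p.2 ∩ Ico (2 * a + y) (2 * a + 2 * y)).card : ℝ) ^ 2 := by
  have hr2 : Real.sqrt N ^ 2 = N := Real.sq_sqrt (Nat.cast_nonneg N)
  set r := Real.sqrt N with hrdef
  have h1 := region (A + A) (2 * a + y) (2 * a + 2 * y)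
    ⟨a + a, add_mem_add ha ha, by omega⟩ ⟨(a + L) + (a + L), add_mem_add hb hb, by omega⟩
  have h2 := small_sums A a (2 * y) ha'
  have h3 := interval_bound N η B hS hB hη hη1 hN hn a (2 * y) hx
  have h4 : ((A.filter (fun b => a ≤ b ∧ b < a + 2 * y)).card : ℝ)
      ≤ 5 * (2 * y : ℕ) / r := by
    refine le_trans ?_ h3
    have := card_le_card (filter_subset_filter (fun b => a ≤ b ∧ b < a + 2 * y) hAB)
    exact_mod_cast this
  have h5 : (((A + A).filter (fun s => s < 2 * a + 2 * y)).card : ℝ) ≤ (10 * y / r) ^ 2 := by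
    calc (((A + A).filter (fun s => s < 2 * a + 2 * y)).card : ℝ)
        ≤ ((A.filter (fun b => a ≤ b ∧ b < a + 2 * y)).card : ℝ) ^ 2 := by exact_mod_cast h2
      _ ≤ (5 * (2 * y : ℕ) / r) ^ 2 := pow_le_pow_left₀ (by positivity) h4 2
      _ = (10 * y / r) ^ 2 := by push_cast; ring
  have h6 : 2 * a + 2 * y - (2 * a + y) = y := by omega
  rw [h6] at h1
  set Q : ℝ := ∑ p ∈ gaps (A + A),
      ((Ico p.1 p.2 ∩ Ico (2 * a + y) (2 * a + 2 * y)).card : ℝ) ^ 2 with hQ
  have hQ0 : 0 ≤ Q := sum_nonneg (fun _ _ => sq_nonneg _)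
  have h7 : (y : ℝ) ^ 2 ≤ (10 * y / r) ^ 2 * Q := h1.trans (mul_le_mul_of_nonneg_right h5 hQ0)
  have hy' : (0 : ℝ) < y := by exact_mod_cast hy
  have h8 : (10 * (y : ℝ) / r) ^ 2 * Q = (y : ℝ) ^ 2 * (100 * Q / N) := by
    rw [← hr2]; ring
  rw [h8] at h7
  have h9 : 1 ≤ 100 * Q / N := by
    have : (y : ℝ) ^ 2 * 1 ≤ (y : ℝ) ^ 2 * (100 * Q / N) := by linarith only [h7]
    exact le_of_mul_le_mul_left this (by positivity)
  have hNpos : (0 : ℝ) < N := by rw [← hr2]; positivity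
  rw [le_div_iff₀ hNpos] at h9
  linarith only [h9]

theorem near_extremal (N : ℕ) (η c : ℝ) (K : ℕ) (A B : Finset ℕ) (hη : 0 < η)
    (hN : 16 ≤ η ^ 4 * N) (hc : 100 * 2 ^ K * η ≤ c) (hAB : A ⊆ B) (hB : ∀ b ∈ B, b ≤ N)
    (hS : IsSid B) (hn : (1 - η) * Real.sqrt N ≤ B.card) (hcA : c * Real.sqrt N ≤ A.card) :
    (K : ℝ) / 400 ≤ (1 / ((A + A).card : ℝ)) *
      ∑ p ∈ gaps (A + A), ((p.2 : ℝ) - (p.1 : ℝ)) ^ 2 := by
  have hr2 : Real.sqrt N ^ 2 = N := Real.sq_sqrt (Nat.cast_nonneg N)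
  have hr0 : 0 ≤ Real.sqrt N := Real.sqrt_nonneg _
  set r := Real.sqrt N with hrdef
  have hNpos : (0 : ℝ) < N := by
    rcases (Nat.cast_nonneg N : (0 : ℝ) ≤ N).lt_or_eq with h | h
    · exact h
    · rw [← h] at hN; norm_num at hN
  have hrpos : 0 < r := Real.sqrt_pos.2 hNpos
  have h2K : (1 : ℝ) ≤ 2 ^ K := one_le_pow₀ (by norm_num)
  have hc1 : 100 * η ≤ c := by nlinarith only [hc, hη, h2K]
  have hcpos : 0 < c := by linarith
  -- `2 ≤ r`
  have hr2' : 2 ≤ r := by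
    by_contra hcon
    push Not at hcon
    have hN4 : (N : ℝ) < 4 := by rw [← hr2]; nlinarith only [hcon, hr0]
    have hN3 : N ≤ 3 := by
      have : N < 4 := by exact_mod_cast hN4
      omega
    have hAc : A.card ≤ 4 := by
      have h1 : A ⊆ range 4 := by
        intro z hz
        have := hB z (hAB hz)
        simp only [mem_range]; omega
      simpa using card_le_card h1
    have hAc' : (A.card : ℝ) ≤ 4 := by exact_mod_cast hAc
    have hη4 : 4 ≤ η ^ 4 := by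
      have : η ^ 4 * N ≤ η ^ 4 * 4 := mul_le_mul_of_nonneg_left hN4.le (by positivity)
      linarith
    have hη1 : 1 ≤ η := by
      by_contra h
      push Not at h
      have : η ^ 4 ≤ 1 := pow_le_one₀ hη.le h.le
      linarith
    have hr1 : 1 ≤ r := by
      have : (1 : ℝ) ≤ N := by
        have : 0 < N := by exact_mod_cast hNpos
        exact_mod_cast this
      rw [← hr2] at this
      nlinarith only [hrpos, hAc', this, hc1, hη1, hcon, hcA, hr0]
    nlinarith only [hcA, hr2, hNpos, hAc', hη1, hc1, hcon, hη, hr1, hr0]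
  have hAB' : (A.card : ℝ) ≤ B.card := by exact_mod_cast card_le_card hAB
  have hAc : (A.card : ℝ) ≤ 2 * r := hAB'.trans (card_bound N B hS hB hr2')
  have hc2 : c ≤ 2 := by
    have : c * r ≤ 2 * r := hcA.trans hAc
    exact le_of_mul_le_mul_right this hrpos
  have hη50 : η ≤ 1 / 50 := by linarith
  have hη12 : η ≤ 1 / 2 := by linarith
  have hηN : 1 ≤ η * N := by
    have h1 : η ^ 4 * N ≤ η * N := by
      have : η ^ 4 ≤ η := by
        have h3 : η ^ 3 ≤ 1 := pow_le_one₀ hη.le (by linarith)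
        nlinarith only [hη, h3]
      exact mul_le_mul_of_nonneg_right this hNpos.le
    linarith
  have hAne : A.Nonempty := by
    rw [← card_pos]
    have : (0 : ℝ) < A.card := lt_of_lt_of_le (by positivity) hcA
    exact_mod_cast this
  set a := A.min' hAne with hadef
  set b := A.max' hAne with hbdef
  have haA : a ∈ A := min'_mem _ _
  have hbA : b ∈ A := max'_mem _ _
  have ha' : ∀ z ∈ A, a ≤ z := fun z hz => min'_le _ _ hz
  have hb' : ∀ z ∈ A, z ≤ b := fun z hz => le_max' _ _ hz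
  have hab : a ≤ b := ha' b hbA
  obtain ⟨L, hL⟩ := Nat.exists_eq_add_of_le hab
  set h : ℕ := ⌈4 * η * N⌉₊ with hhdef
  have hh1 : 4 * η * N ≤ h := Nat.le_ceil _
  have hh2 : (h : ℝ) < 4 * η * N + 1 := Nat.ceil_lt_add_one (by positivity)
  have hh3 : (h : ℝ) ≤ 5 * η * N := by nlinarith only [hηN, hh2]
  have hhpos : 0 < h := by
    have : (0 : ℝ) < h := lt_of_lt_of_le (by positivity) hh1
    exact_mod_cast this
  -- the length of `A`
  have hLbig : c * N / 5 ≤ (L : ℝ) + 1 := by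
    have hcov : ∀ X : ℕ, L + 1 ≤ X → 8 * η * N ≤ (X : ℝ) → (A.card : ℝ) ≤ 5 * X / r := by
      intro X hX hX2
      refine le_trans ?_ (interval_bound N η B hS hB hη hη12 hN hn a X hX2)
      have h1 : A ⊆ B.filter (fun z => a ≤ z ∧ z < a + X) := by
        intro z hz
        simp only [mem_filter]
        have h2 := ha' z hz
        have h3 := hb' z hz
        exact ⟨hAB hz, h2, by omega⟩
      exact_mod_cast card_le_card h1
    rcases le_or_gt (L + 1) (2 * h) with h1 | h1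
    · exfalso
      have h2 := hcov (2 * h) h1 (by push_cast; linarith only [hh1])
      have h3 : c * r ≤ 5 * ((2 * h : ℕ) : ℝ) / r := hcA.trans h2
      rw [le_div_iff₀ hrpos] at h3
      push_cast at h3
      have h4 : c * r * r = c * N := by rw [← hr2]; ring
      rw [h4] at h3
      have h5 : 100 * η * N ≤ c * N := mul_le_mul_of_nonneg_right hc1 hNpos.le
      nlinarith only [hη, hc1, hc2, hηN, hh2, h3, h5]
    · have h2 := hcov (L + 1) le_rfl (by
        have h3 : ((2 * h : ℕ) : ℝ) ≤ ((L + 1 : ℕ) : ℝ) := by exact_mod_cast h1.le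
        push_cast at h3 ⊢
        linarith only [hh1, h3])
      have h3 : c * r ≤ 5 * ((L + 1 : ℕ) : ℝ) / r := hcA.trans h2
      rw [le_div_iff₀ hrpos] at h3
      push_cast at h3
      have h4 : c * r * r = c * N := by rw [← hr2]; ring
      rw [h4] at h3
      linarith only [h3]
  have hKL : 2 ^ K * h ≤ 2 * L := by
    have h1 : (2 : ℝ) ^ K * h ≤ 2 * L := by
      have h2 : (2 : ℝ) ^ K * h ≤ 2 ^ K * (5 * η * N) := mul_le_mul_of_nonneg_left hh3 (by positivity)
      have h3 : 100 * 2 ^ K * η * N ≤ c * N := mul_le_mul_of_nonneg_right hc hNpos.le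
      have h4 : 1 ≤ 2 ^ K * (η * N) := by nlinarith only [h2K, hηN]
      nlinarith only [hη, hc1, hc2, hLbig, h2, h3, h4]
    exact_mod_cast h1
  -- sum over the scales
  have hscale : ∀ k ∈ range K, (N : ℝ) / 100 ≤ ∑ p ∈ gaps (A + A),
      ((Ico p.1 p.2 ∩ Ico (2 * a + 2 ^ k * h) (2 * a + 2 ^ (k + 1) * h)).card : ℝ) ^ 2 := by
    intro k hk
    have hk' := mem_range.1 hk
    have h1 : 2 ^ (k + 1) * h ≤ 2 ^ K * h :=
      Nat.mul_le_mul_right _ (Nat.pow_le_pow_right (by norm_num) hk')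
    have h2 : 2 ^ (k + 1) * h = 2 * (2 ^ k * h) := by ring
    rw [h2]
    apply scale N η A B hAB hS hB hη hη12 hN hn hrpos a L (2 ^ k * h) haA ha' (hL ▸ hbA)
      (by positivity) (by omega)
    have h3 : h ≤ 2 ^ k * h := Nat.le_mul_of_pos_left _ (by positivity)
    have h3' : (h : ℝ) ≤ ((2 ^ k * h : ℕ) : ℝ) := by exact_mod_cast h3
    push_cast at h3' ⊢
    linarith only [hh1, h3']
  have htot : (K : ℝ) * (N / 100) ≤ ∑ p ∈ gaps (A + A), ((p.2 : ℝ) - (p.1 : ℝ)) ^ 2 := by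
    calc (K : ℝ) * (N / 100) = ∑ _k ∈ range K, (N : ℝ) / 100 := by simp
      _ ≤ ∑ k ∈ range K, ∑ p ∈ gaps (A + A),
            ((Ico p.1 p.2 ∩ Ico (2 * a + 2 ^ k * h) (2 * a + 2 ^ (k + 1) * h)).card : ℝ) ^ 2 :=
          sum_le_sum hscale
      _ = ∑ p ∈ gaps (A + A), ∑ k ∈ range K,
            ((Ico p.1 p.2 ∩ Ico (2 * a + 2 ^ k * h) (2 * a + 2 ^ (k + 1) * h)).card : ℝ) ^ 2 :=
          sum_comm
      _ ≤ ∑ p ∈ gaps (A + A), ((p.2 : ℝ) - (p.1 : ℝ)) ^ 2 := by
          apply sum_le_sum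
          intro p hp
          refine (pieces (2 * a) h K (Ico p.1 p.2)).trans ?_
          simp only [gaps, mem_filter] at hp
          rw [Nat.card_Ico, Nat.cast_sub hp.2.1.le]
  have hcardAA : ((A + A).card : ℝ) ≤ 4 * N := by
    have h1 : ((A + A).card : ℝ) ≤ (A.card : ℝ) * A.card := by exact_mod_cast card_add_le
    have h2 : (A.card : ℝ) * A.card ≤ (2 * r) * (2 * r) := by
      apply mul_le_mul hAc hAc (by positivity) (by positivity)
    have h3 : (2 * r) * (2 * r) = 4 * N := by rw [← hr2]; ring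
    linarith only [hr2, h1, h2]
  have hcardpos : (0 : ℝ) < (A + A).card := Nat.cast_pos.2 (card_pos.2 (hAne.add hAne))
  rw [one_div_mul_eq_div, le_div_iff₀ hcardpos]
  calc (K : ℝ) / 400 * (A + A).card ≤ (K : ℝ) / 400 * (4 * N) :=
        mul_le_mul_of_nonneg_left hcardAA (by positivity)
    _ = (K : ℝ) * (N / 100) := by ring
    _ ≤ _ := htot

end Pool.Agent.H34.SG
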